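import Mathlib

/-! Central hyperplane arrangements in `ℂ^l`, the ideal of the singular locus, freeness,
inductive freeness and supersolvability. -/

namespace Pool.Agent.MP_761c50_ag.SS

noncomputable section

/-- Linear subspaces of `ℂ^l`. -/
abbrev Sub (l : ℕ) : Type := Submodule ℂ (Fin l → ℂ)

/-- The linear form with coefficient vector `a`. -/
def lin {l : ℕ} (a : Fin l → ℂ) : MvPolynomial (Fin l) ℂ :=
  ∑ i, MvPolynomial.C (a i) * MvPolynomial.X i

/-- A finite set of linear hyperplanes of `ℂ^l`. -/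
def IsArr {l : ℕ} (A : Set (Sub l)) : Prop :=
  A.Finite ∧ ∀ H ∈ A, Module.finrank ℂ H + 1 = l

/-- The ideal generated by the linear forms vanishing on `Y`. -/
def prm {l : ℕ} (Y : Sub l) : Ideal (MvPolynomial (Fin l) ℂ) :=
  Ideal.span {f | ∃ a : Fin l → ℂ, f = lin a ∧ ∀ v ∈ Y, MvPolynomial.eval v f = 0}

/-- The set `L_2(A)` of intersections of two different members of `A`. -/
def L2 {l : ℕ} (A : Set (Sub l)) : Set (Sub l) :=
  {Y | ∃ H ∈ A, ∃ K ∈ A, H ≠ K ∧ Y = H ⊓ K}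

/-- The ideal `J(A)`. -/
def singI {l : ℕ} (A : Set (Sub l)) : Ideal (MvPolynomial (Fin l) ℂ) :=
  ⨅ Y ∈ L2 A, prm Y

/-- The symbolic power `J(A)^(m)`. -/
def symb {l : ℕ} (A : Set (Sub l)) (m : ℕ) :
    Ideal (MvPolynomial (Fin l) ℂ) :=
  ⨅ Y ∈ L2 A, prm Y ^ m

/-- The module `D(A)` of logarithmic derivations. -/
def logDer {l : ℕ} (A : Set (Sub l)) :
    Submodule (MvPolynomial (Fin l) ℂ)
      (Derivation ℂ (MvPolynomial (Fin l) ℂ) (MvPolynomial (Fin l) ℂ)) where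
  carrier := {θ | ∀ H ∈ A, ∀ a : Fin l → ℂ,
    (∀ v, v ∈ H ↔ MvPolynomial.eval v (lin a) = 0) → lin a ∣ θ (lin a)}
  add_mem' := fun h1 h2 H hH a ha => dvd_add (h1 H hH a ha) (h2 H hH a ha)
  zero_mem' := fun _ _ _ _ => dvd_zero _
  smul_mem' := fun c _ h H hH a ha => Dvd.dvd.mul_left (h H hH a ha) c

/-- `D(A)` has a basis of homogeneous derivations whose degrees form the multiset `e`. -/
def FreeExp {l : ℕ} (A : Set (Sub l)) (e : Multiset ℕ) : Prop :=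
  ∃ (n : ℕ) (b : Module.Basis (Fin n) (MvPolynomial (Fin l) ℂ) (logDer A)) (d : Fin n → ℕ),
    (∀ k i, ((b k).1 (MvPolynomial.X i)).IsHomogeneous (d k)) ∧
      e = Multiset.map d Finset.univ.val

/-- The class of inductively free arrangements. The restriction to `H` is read in `ℂ^l`
through a linear injection `φ` with image `H`. -/
inductive IndFree : (l : ℕ) → Set (Sub l) → Prop
  | empty (l : ℕ) : IndFree l ∅
  | step (l : ℕ) (A : Set (Sub (l + 1))) (H : Sub (l + 1))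
      (φ : (Fin l → ℂ) →ₗ[ℂ] (Fin (l + 1) → ℂ)) (e' e'' : Multiset ℕ) :
      IsArr A → H ∈ A → Function.Injective φ → LinearMap.range φ = H →
      IndFree (l + 1) (A \ {H}) → IndFree l (Submodule.comap φ '' (A \ {H})) →
      FreeExp (A \ {H}) e' → FreeExp (Submodule.comap φ '' (A \ {H})) e'' → e'' ≤ e' →
      IndFree (l + 1) A

/-- The intersection lattice `L(A)`. -/
def Lat {l : ℕ} (A : Set (Sub l)) : Set (Sub l) :=
  {Y | ∃ B ⊆ A, Y = sInf B}

/-- Modular elements of `L(A)`. -/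
def Modular {l : ℕ} (A : Set (Sub l)) (Y : Sub l) : Prop :=
  Y ∈ Lat A ∧ ∀ Z ∈ Lat A, Y ⊔ Z ∈ Lat A

/-- `L(A)` has a maximal chain of modular elements. -/
def Supersolvable {l : ℕ} (A : Set (Sub l)) : Prop :=
  ∃ (r : ℕ) (Y : ℕ → Sub l),
    (∀ i ≤ r, Modular A (Y i) ∧ Module.finrank ℂ (Y i) + i = l) ∧
      (∀ i < r, Y (i + 1) ≤ Y i) ∧ Y r = sInf A

/-- The nine planes of the reflection arrangement `B_3` together with the planes
`x_1 = ρ x_2`, `ρ ∈ Λ`. -/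
def famB3 (Λ : Finset ℂ) : Set (Sub 3) :=
  {H | ∃ a : Fin 3 → ℂ,
    (a ∈ ({![1, 0, 0], ![0, 1, 0], ![0, 0, 1], ![1, 1, 0], ![1, -1, 0], ![1, 0, 1], ![1, 0, -1],
      ![0, 1, 1], ![0, 1, -1]} : Set (Fin 3 → ℂ)) ∨ ∃ ρ ∈ Λ, a = ![0, 1, -ρ]) ∧
    ∀ v, v ∈ H ↔ MvPolynomial.eval v (lin a) = 0}

end

end Pool.Agent.MP_761c50_ag.SS
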